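import Mathlib
import Pool.Agent.Q88.MK.Stm

set_option autoImplicit false

open MvPolynomial

namespace Pool.Agent.Q210.MK_DER

open Pool.Agent.Q88.MK

theorem der : S_der := by
  intro P g h g' h' t hg hh
  induction P using MvPolynomial.induction_on with
  | C a =>
    have e : (fun t => ev (C a) (g t) (h t)) = fun _ => a := by
      funext t; simp [ev]
    rw [e]
    simp only [ev, pderiv_C, map_zero, zero_mul, add_zero]
    exact hasDerivAt_const t a
  | add p q hp hq =>
    have e : (fun t => ev (p + q) (g t) (h t)) =
        fun t => ev p (g t) (h t) + ev q (g t) (h t) := by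
      funext t; simp [ev]
    rw [e]
    refine (hp.add hq).congr_deriv ?_
    simp only [ev, map_add]
    ring
  | mul_X p i hp =>
    have e : (fun t => ev (p * X i) (g t) (h t)) =
        fun t => ev p (g t) (h t) * (![g t, h t] i) := by
      funext t; simp [ev]
    have hX : ∀ i : Fin 2, HasDerivAt (fun t => ![g t, h t] i) (![g', h'] i) t := by
      rw [Fin.forall_fin_two]
      exact ⟨by simpa using hg, by simpa using hh⟩
    rw [e]
    refine (hp.mul (hX i)).congr_deriv ?_
    have key : ∀ i : Fin 2, ((ev (pderiv 0 p) (g t) (h t) * g' + ev (pderiv 1 p) (g t) (h t) * h') *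
        (![g t, h t] i) + ev p (g t) (h t) * (![g', h'] i)) =
        ev (pderiv 0 (p * X i)) (g t) (h t) * g' + ev (pderiv 1 (p * X i)) (g t) (h t) * h' := by
      rw [Fin.forall_fin_two]
      constructor
      · simp only [ev, pderiv_mul, pderiv_X, map_add, map_mul, eval_X, Matrix.cons_val_zero,
          Pi.single_apply, Matrix.cons_val]
        simp
        ring
      · simp only [ev, pderiv_mul, pderiv_X, map_add, map_mul, eval_X, Matrix.cons_val_one,
          Pi.single_apply, Matrix.cons_val]
        simp
        ring
    exact key i

end Pool.Agent.Q210.MK_DER
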