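import Mathlib
import Pool.Agent.Q88.MK.Stm

set_option autoImplicit false

open MvPolynomial

namespace Pool.Agent.Q210.MK_SCL

open Pool.Agent.Q88.MK

theorem scl : S_scl := by
  intro F u v
  refine ⟨∑ m ∈ F.support, monomial m (coeff m F * u ^ m 0 * v ^ m 1), ?_, ?_⟩
  · refine (MvPolynomial.totalDegree_finsetSum _ _).trans ?_
    refine Finset.sup_le fun m hm => ?_
    exact (MvPolynomial.totalDegree_monomial_le _ _).trans (MvPolynomial.le_totalDegree hm)
  · intro x y
    unfold ev
    rw [map_sum, MvPolynomial.eval_eq' ![u * x, v * y] F]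
    refine Finset.sum_congr rfl fun m _ => ?_
    rw [MvPolynomial.eval_monomial, Finsupp.prod_fintype _ _ (fun i => pow_zero _),
      Fin.prod_univ_two, Fin.prod_univ_two]
    simp only [Matrix.cons_val_zero, Matrix.cons_val_one, Matrix.cons_val]
    rw [mul_pow, mul_pow]
    ring

end Pool.Agent.Q210.MK_SCL
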