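import Mathlib
import Pool.Agent.Q49.MR.Stm

open Module
open Q49.MR

namespace Q210.MR_B1

/-- number of zeros of the binary form -/
lemma n_zero {K : Type} [Field K] [Fintype K] [DecidableEq K] (a c : K) (ha : a ≠ 0)
    (hs : ¬ IsSquare (-c / a)) :
    (Finset.univ.filter fun y : K × K => a * y.1 ^ 2 + c * y.2 ^ 2 = 0).card = 1 := by
  rw [Finset.card_eq_one]
  refine ⟨(0, 0), ?_⟩
  ext ⟨y, z⟩
  simp only [Finset.mem_filter, Finset.mem_univ, true_and, Finset.mem_singleton, Prod.mk.injEq]
  constructor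
  · intro h
    have hz : z = 0 := by
      by_contra hz
      apply hs
      refine ⟨y / z, ?_⟩
      field_simp
      linear_combination -h
    subst hz
    refine ⟨?_, rfl⟩
    have : a * y ^ 2 = 0 := by simpa using h
    rcases mul_eq_zero.1 this with h | h
    · exact absurd h ha
    · exact pow_eq_zero_iff (two_ne_zero) |>.1 h
  · rintro ⟨rfl, rfl⟩
    ring

/-- every element is a value of the norm form -/
lemma norm_surj {K : Type} [Field K] [Fintype K] (h2 : (2 : K) ≠ 0) (D : K) (hD : D ≠ 0) (u : K) :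
    ∃ s t : K, s ^ 2 - D * t ^ 2 = u := by
  classical
  open Polynomial in
  have hf : (X ^ 2 - C u : K[X]).degree = 2 := by
    exact degree_X_pow_sub_C (by norm_num) u
  open Polynomial in
  have hg : (C (-D) * X ^ 2 : K[X]).degree = 2 := by
    exact degree_C_mul_X_pow 2 (neg_ne_zero.2 hD)
  have hR : Fintype.card K % 2 = 1 := by
    have hc : ringChar K ≠ 2 := by
      intro h
      apply h2
      have := ringChar.Nat.cast_ringChar (R := K)
      rw [h] at this
      exact_mod_cast this
    exact FiniteField.odd_card_of_char_ne_two hc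
  obtain ⟨s, t, h⟩ := FiniteField.exists_root_sum_quadratic hf hg hR
  refine ⟨s, t, ?_⟩
  simp only [Polynomial.eval_sub, Polynomial.eval_pow, Polynomial.eval_X, Polynomial.eval_C,
    Polynomial.eval_mul] at h
  linear_combination h

lemma n_le {K : Type} [Field K] [Fintype K] [DecidableEq K] (h2 : (2 : K) ≠ 0) (a c : K)
    (ha : a ≠ 0) (hs : ¬ IsSquare (-c / a)) (u u' : K) (hu : u ≠ 0) (hu' : u' ≠ 0) :
    (Finset.univ.filter fun y : K × K => a * y.1 ^ 2 + c * y.2 ^ 2 = u).card ≤
    (Finset.univ.filter fun y : K × K => a * y.1 ^ 2 + c * y.2 ^ 2 = u').card := by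
  have hc : c ≠ 0 := by
    rintro rfl
    exact hs ⟨0, by simp⟩
  have hD : -c / a ≠ 0 := div_ne_zero (neg_ne_zero.2 hc) ha
  obtain ⟨s, t, hst⟩ := norm_surj h2 (-c / a) hD (u' / u)
  have hN : s ^ 2 - (-c / a) * t ^ 2 ≠ 0 := by
    rw [hst]; exact div_ne_zero hu' hu
  have hst' : (a * s ^ 2 + c * t ^ 2) * u = a * u' := by
    field_simp at hst
    linear_combination hst
  refine Finset.card_le_card_of_injOn
    (fun y : K × K => (y.1 * s + (-c / a) * y.2 * t, y.1 * t + y.2 * s)) ?_ ?_
  · rintro ⟨y, z⟩ h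
    simp only [Finset.coe_filter, Finset.mem_univ, true_and, Set.mem_ofPred_eq] at h ⊢
    have key : a * (y * s + (-c / a) * z * t) ^ 2 + c * (y * t + z * s) ^ 2 =
        (a * y ^ 2 + c * z ^ 2) * (a * s ^ 2 + c * t ^ 2) / a := by
      field_simp
      ring
    rw [key, h, mul_comm, hst']
    field_simp
  · rintro ⟨y, z⟩ _ ⟨y', z'⟩ _ h
    simp only [Prod.mk.injEq] at h
    obtain ⟨e1, e2⟩ := h
    have k1 : (s ^ 2 - (-c / a) * t ^ 2) * (y - y') = 0 := by
      linear_combination s * e1 - (-c / a) * t * e2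
    have k2 : (s ^ 2 - (-c / a) * t ^ 2) * (z - z') = 0 := by
      linear_combination s * e2 - t * e1
    rcases mul_eq_zero.1 k1 with h | h
    · exact absurd h hN
    rcases mul_eq_zero.1 k2 with h' | h'
    · exact absurd h' hN
    rw [sub_eq_zero] at h h'
    rw [h, h']

lemma n_ge {K : Type} [Field K] [Fintype K] [DecidableEq K] (h2 : (2 : K) ≠ 0) (a c : K)
    (ha : a ≠ 0) (hs : ¬ IsSquare (-c / a)) (u : K) (hu : u ≠ 0) :
    1 < (Finset.univ.filter fun y : K × K => a * y.1 ^ 2 + c * y.2 ^ 2 = u).card := by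
  refine lt_of_lt_of_le ?_ (n_le h2 a c ha hs a u ha hu)
  rw [Finset.one_lt_card]
  refine ⟨(1, 0), by simp, (-1, 0), by simp, ?_⟩
  intro h
  have := (Prod.mk.inj h).1
  apply h2
  linear_combination this

/-- the ternary comparison -/
lemma tern {K : Type} [Field K] [Fintype K] [DecidableEq K] (h2 : (2 : K) ≠ 0) (a c ε : K)
    (ha : a ≠ 0) (hs : ¬ IsSquare (-c / a)) (hε : ¬ IsSquare ε) :
    (Finset.univ.filter fun w : K × (K × K) =>
      w.1 ^ 2 + (a * w.2.1 ^ 2 + c * w.2.2 ^ 2) = 1).card <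
    (Finset.univ.filter fun w : K × (K × K) =>
      w.1 ^ 2 + (a * w.2.1 ^ 2 + c * w.2.2 ^ 2) = ε).card := by
  have hsum : ∀ t : K, (Finset.univ.filter fun w : K × (K × K) =>
      w.1 ^ 2 + (a * w.2.1 ^ 2 + c * w.2.2 ^ 2) = t).card =
      ∑ x : K, (Finset.univ.filter fun y : K × K =>
        a * y.1 ^ 2 + c * y.2 ^ 2 = t - x ^ 2).card := by
    intro t
    rw [Finset.card_filter, Fintype.sum_prod_type]
    refine Finset.sum_congr rfl fun x _ => ?_
    rw [Finset.card_filter]
    refine Finset.sum_congr rfl fun y _ => ?_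
    simp only [eq_sub_iff_add_eq']
  rw [hsum, hsum]
  have hε' : ∀ x : K, ε - x ^ 2 ≠ 0 := by
    intro x h
    apply hε
    refine ⟨x, ?_⟩
    linear_combination h
  have hone := n_zero a c ha hs
  refine Finset.sum_lt_sum (fun x _ => ?_) ⟨1, Finset.mem_univ _, ?_⟩
  · by_cases hx : 1 - x ^ 2 = 0
    · rw [hx, hone]
      exact (n_ge h2 a c ha hs _ (hε' x)).le
    · exact n_le h2 a c ha hs _ _ hx (hε' x)
  · rw [show (1 : K) - 1 ^ 2 = 0 by ring, hone]
    exact n_ge h2 a c ha hs _ (hε' 1)

/-- preimages under a surjective linear map -/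
lemma fib {K V W : Type} [Field K] [AddCommGroup V] [Module K V] [AddCommGroup W] [Module K W]
    [Fintype V] [Fintype W] [DecidableEq W] (T : V →ₗ[K] W) (hT : Function.Surjective T) :
    ∃ N : ℕ, 0 < N ∧ ∀ S : Finset W,
      (Finset.univ.filter fun v : V => T v ∈ S).card = N * S.card := by
  refine ⟨(Finset.univ.filter fun v : V => T v = 0).card, ?_, ?_⟩
  · apply Finset.card_pos.2
    exact ⟨0, by simp⟩
  · intro S
    have h1 : ∀ w ∈ S, ((Finset.univ.filter fun v : V => T v ∈ S).filter
        fun v => T v = w).card = (Finset.univ.filter fun v : V => T v = 0).card := by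
      intro w hw
      obtain ⟨v0, hv0⟩ := hT w
      refine Finset.card_bij (fun v _ => v - v0) ?_ ?_ ?_
      · intro v hv
        simp only [Finset.mem_filter, Finset.mem_univ, true_and] at hv ⊢
        rw [map_sub, hv.2, hv0, sub_self]
      · intro v _ v' _ h
        exact sub_left_injective h
      · intro v hv
        simp only [Finset.mem_filter, Finset.mem_univ, true_and] at hv
        refine ⟨v + v0, ?_, by simp⟩
        simp only [Finset.mem_filter, Finset.mem_univ, true_and, map_add, hv, hv0, zero_add]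
        exact ⟨hw, trivial⟩
    rw [Finset.card_eq_sum_card_fiberwise (f := T) (t := S)
      (fun v hv => by simpa using hv), Finset.sum_congr rfl h1, Finset.sum_const, smul_eq_mul,
      mul_comm]

lemma idx : ∀ j1 j2 : Fin 4, j1 ≠ j2 → ∃ i1 i2 : Fin 4, i1 ≠ i2 ∧ i1 ≠ j1 ∧ i1 ≠ j2 ∧ i2 ≠ j1 ∧
    i2 ≠ j2 ∧ (Finset.univ : Finset (Fin 4)) = {i1, i2, j1, j2} := by
  decide

/-- a vector of the wanted value -/
lemma exists_one {K V : Type} [Field K] [Finite K] [AddCommGroup V] [Module K V] [Finite V]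
    (B : LinearMap.BilinForm K V) (h2 : (2 : K) ≠ 0) (ε : K) (hε : ¬ IsSquare ε)
    (hcard : Nat.card {v : V // B v v = ε} ≤ Nat.card {v : V // B v v = 1})
    (v1 : V) (hv1 : B v1 v1 ≠ 0) : ∃ v0, B v0 v0 = 1 := by
  classical
  haveI := Fintype.ofFinite K
  by_cases hs : IsSquare (B v1 v1)
  · obtain ⟨s, hs⟩ := hs
    have hs0 : s ≠ 0 := by
      rintro rfl
      exact hv1 (by simpa using hs)
    refine ⟨s⁻¹ • v1, ?_⟩
    simp only [map_smul, LinearMap.smul_apply, smul_eq_mul, hs]
    field_simp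
  · have hε0 : ε ≠ 0 := by
      rintro rfl
      exact hε ⟨0, by simp⟩
    have hc : ringChar K ≠ 2 := by
      intro h
      apply h2
      have := ringChar.Nat.cast_ringChar (R := K)
      rw [h] at this
      exact_mod_cast this
    have hsq : IsSquare (B v1 v1 * ε) := by
      have e1 : quadraticChar K (B v1 v1) = -1 :=
        (quadraticChar_neg_one_iff_not_isSquare).2 hs
      have e2 : quadraticChar K ε = -1 :=
        (quadraticChar_neg_one_iff_not_isSquare).2 hε
      have e3 : quadraticChar K (B v1 v1 * ε) = 1 := by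
        rw [map_mul, e1, e2]; norm_num
      exact (quadraticChar_one_iff_isSquare (mul_ne_zero hv1 hε0)).1 e3
    obtain ⟨s, hs'⟩ := hsq
    have hs0 : s ≠ 0 := by
      rintro rfl
      rcases mul_eq_zero.1 (show B v1 v1 * ε = 0 by simpa using hs') with h | h
      · exact hv1 h
      · exact hε0 h
    have hval : B ((ε / s) • v1) ((ε / s) • v1) = ε := by
      simp only [map_smul, LinearMap.smul_apply, smul_eq_mul]
      field_simp
      linear_combination hs'
    haveI : Nonempty {v : V // B v v = ε} := ⟨⟨_, hval⟩⟩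
    have hpos : 0 < Nat.card {v : V // B v v = ε} := Nat.card_pos
    obtain ⟨⟨v0, h⟩⟩ := (Nat.card_pos_iff.1 (lt_of_lt_of_le hpos hcard)).1
    exact ⟨v0, h⟩

theorem b1 : S_B1 := by
  intro K V _ _ _ _ B h2 hdim hsymm k hk hkr ε hε hcard
  classical
  haveI : Module.Finite K V := Module.finite_of_finrank_pos (by omega)
  haveI : Finite V := Module.finite_of_finite K
  haveI := Fintype.ofFinite K
  haveI := Fintype.ofFinite V
  by_cases h0 : ∀ v, B v v = 0
  · exact ⟨0, 0, 0, fun v => by simp [h0]⟩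
  push Not at h0
  obtain ⟨v1, hv1⟩ := h0
  obtain ⟨v0, hv0⟩ := exists_one B h2 ε hε hcard v1 hv1
  -- the form `B'`
  let φ : V →ₗ[K] K := B v0
  have hφ : ∀ v, φ v = B v0 v := fun v => rfl
  let B' : LinearMap.BilinForm K V := B - LinearMap.BilinForm.linMulLin φ φ
  have hB' : ∀ v w, B' v w = B v w - φ v * φ w := fun v w => rfl
  have hB'symm : LinearMap.IsSymm B' := ⟨fun v w => by
    simp only [hB', RingHom.id_apply]
    rw [hsymm v w, mul_comm]⟩
  haveI : Invertible (2 : K) := invertibleOfNonzero h2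
  obtain ⟨b', hb'⟩ := LinearMap.BilinForm.exists_orthogonal_basis hB'symm
  let b : Basis (Fin 4) K V := b'.reindex (finCongr hdim)
  have hb : ∀ i j, i ≠ j → B' (b i) (b j) = 0 := by
    intro i j hij
    simp only [b, Basis.reindex_apply]
    exact hb' (fun h => hij (by simpa using h))
  set w : Fin 4 → K := fun i => B' (b i) (b i) with hw
  have hexp : ∀ v, B' v v = ∑ i, w i * (b.repr v i) ^ 2 := by
    intro v
    conv_lhs => rw [← b.sum_repr v]
    simp only [map_sum, LinearMap.sum_apply, map_smul, LinearMap.smul_apply, smul_eq_mul]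
    refine Finset.sum_congr rfl fun i _ => ?_
    rw [Finset.sum_eq_single i]
    · simp only [hw]; ring
    · intro j _ hj
      rw [hb _ _ (by tauto)]; ring
    · intro h; exact absurd (Finset.mem_univ _) h
  have hrad : ∀ v, (∀ x, B' v x = 0) → ∀ i, w i ≠ 0 → b.repr v i = 0 := by
    intro v hv i hi
    have : B' v (b i) = b.repr v i * w i := by
      conv_lhs => rw [← b.sum_repr v]
      simp only [map_sum, LinearMap.sum_apply, map_smul, LinearMap.smul_apply, smul_eq_mul]
      rw [Finset.sum_eq_single i]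
      · intro j _ hj
        rw [hb _ _ hj, mul_zero]
      · intro h; exact absurd (Finset.mem_univ _) h
    rw [hv] at this
    rcases mul_eq_zero.1 this.symm with h | h
    · exact h
    · exact absurd h hi
  have hr0 : ∀ x, B' v0 x = 0 := by
    intro x
    rw [hB', hφ v0, hv0, hφ x]; ring
  have hφk : φ k = 0 := by
    rw [hφ, hsymm]; exact hkr v0
  have hrk : ∀ x, B' k x = 0 := by
    intro x
    rw [hB', hφk, hkr]; ring
  -- two zeros among the `w i`
  obtain ⟨j1, j2, hj, hj1, hj2⟩ : ∃ j1 j2 : Fin 4, j1 ≠ j2 ∧ w j1 = 0 ∧ w j2 = 0 := by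
    by_contra hcon
    push Not at hcon
    obtain ⟨j, hj⟩ : ∃ j : Fin 4, ∀ i, i ≠ j → w i ≠ 0 := by
      by_cases hz : ∃ j, w j = 0
      · obtain ⟨j, hj⟩ := hz
        exact ⟨j, fun i hi => hcon j i (Ne.symm hi) hj⟩
      · push Not at hz
        exact ⟨0, fun i _ => hz i⟩
    have hv : ∀ v, (∀ x, B' v x = 0) → v = b.repr v j • b j := by
      intro v hv
      conv_lhs => rw [← b.sum_repr v]
      rw [Finset.sum_eq_single j]
      · intro i _ hi
        rw [hrad v hv i (hj i hi), zero_smul]
      · intro h; exact absurd (Finset.mem_univ _) h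
    have e1 := hv v0 hr0
    have e2 := hv k hrk
    have hkj : b.repr k j ≠ 0 := by
      intro h
      rw [h, zero_smul] at e2
      exact hk e2
    have hbj : b j = (b.repr k j)⁻¹ • k := by
      rw [e2]
      simp only [map_smul, Finsupp.smul_apply, Basis.repr_self, Finsupp.single_eq_same,
        smul_eq_mul, mul_one, smul_smul]
      rw [inv_mul_cancel₀ hkj, one_smul]
    have : φ v0 = 0 := by
      rw [e1, hbj]
      simp [hφk]
    rw [hφ, hv0] at this
    exact one_ne_zero this
  obtain ⟨i1, i2, h12, h1j1, h1j2, h2j1, h2j2, huniv⟩ := idx j1 j2 hj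
  set a := w i1 with ha
  set c := w i2 with hc
  let z1 : V →ₗ[K] K := b.coord i1
  let z2 : V →ₗ[K] K := b.coord i2
  have hQ : ∀ v, B v v = φ v ^ 2 + (a * z1 v ^ 2 + c * z2 v ^ 2) := by
    intro v
    have e1 : B v v = φ v ^ 2 + B' v v := by rw [hB']; ring
    rw [e1, hexp, huniv, Finset.sum_insert (by simp [h12, h1j1, h1j2]),
      Finset.sum_insert (by simp [h2j1, h2j2]), Finset.sum_insert (by simp [hj]),
      Finset.sum_singleton, hj1, hj2]
    simp only [z1, z2, Basis.coord_apply]
    ring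
  have h4 : (4 : K) ≠ 0 := by
    have : (4 : K) = 2 * 2 := by norm_num
    rw [this]; exact mul_ne_zero h2 h2
  by_cases ha0 : a = 0
  · refine ⟨φ, (-c / 4) • z2, z2, fun v => ?_⟩
    rw [hQ, ha0]
    simp only [LinearMap.smul_apply, smul_eq_mul]
    field_simp
    ring
  by_cases hs : IsSquare (-c / a)
  · obtain ⟨m, hm⟩ := hs
    have hm' : c = - a * m ^ 2 := by
      field_simp at hm
      linear_combination -hm
    refine ⟨φ, (-a / 4) • (z1 - m • z2), z1 + m • z2, fun v => ?_⟩
    rw [hQ, hm']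
    simp only [LinearMap.smul_apply, LinearMap.sub_apply, LinearMap.add_apply, smul_eq_mul]
    field_simp
    ring
  exfalso
  -- the map to `K³`
  let T : V →ₗ[K] K × (K × K) := φ.prod (z1.prod z2)
  have hc0 : c ≠ 0 := by
    intro h
    apply hs
    exact ⟨0, by simp [h]⟩
  have hT : Function.Surjective T := by
    rintro ⟨x, y, z⟩
    have hz10 : z1 v0 = 0 := hrad v0 hr0 i1 ha0
    have hz20 : z2 v0 = 0 := hrad v0 hr0 i2 hc0
    refine ⟨y • b i1 + z • b i2 + (x - φ (y • b i1 + z • b i2)) • v0, ?_⟩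
    have hφ0 : φ v0 = 1 := hv0
    have h21 : i2 ≠ i1 := Ne.symm h12
    have q1 : z1 (b i1) = 1 := by simp [z1]
    have q2 : z1 (b i2) = 0 := by simp [z1, Finsupp.single_apply, h21]
    have q3 : z2 (b i1) = 0 := by simp [z2, Finsupp.single_apply, h12]
    have q4 : z2 (b i2) = 1 := by simp [z2]
    refine Prod.ext ?_ (Prod.ext ?_ ?_)
    · change φ _ = x
      simp only [map_add, map_smul, smul_eq_mul, hφ0]
      ring
    · change z1 _ = y
      simp only [map_add, map_smul, smul_eq_mul, hz10, q1, q2]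
      ring
    · change z2 _ = z
      simp only [map_add, map_smul, smul_eq_mul, hz20, q3, q4]
      ring
  obtain ⟨N, hN, hfib⟩ := fib T hT
  have hcnt : ∀ t : K, Nat.card {v : V // B v v = t} =
      N * (Finset.univ.filter fun w : K × (K × K) =>
      w.1 ^ 2 + (a * w.2.1 ^ 2 + c * w.2.2 ^ 2) = t).card := by
    intro t
    rw [← hfib, Nat.card_eq_fintype_card, Fintype.card_subtype]
    congr 1
    ext v
    simp only [Finset.mem_filter, Finset.mem_univ, true_and]
    rw [hQ]
    rfl
  rw [hcnt, hcnt] at hcard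
  have := tern h2 a c ε ha0 hs hε
  have := Nat.mul_lt_mul_of_pos_left this hN
  omega

end Q210.MR_B1
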