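import Mathlib
import Pool.Agent.Q49.MR.Stm

open Module
open Q49.MR

namespace Q210.MR_DET

lemma det4 {R : Type*} [CommRing R] (A : Matrix (Fin 4) (Fin 4) R) :
    A.det =
      A 0 0 * (A 1 1 * (A 2 2 * A 3 3 - A 2 3 * A 3 2) - A 1 2 * (A 2 1 * A 3 3 - A 2 3 * A 3 1)
        + A 1 3 * (A 2 1 * A 3 2 - A 2 2 * A 3 1))
      - A 0 1 * (A 1 0 * (A 2 2 * A 3 3 - A 2 3 * A 3 2) - A 1 2 * (A 2 0 * A 3 3 - A 2 3 * A 3 0)
        + A 1 3 * (A 2 0 * A 3 2 - A 2 2 * A 3 0))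
      + A 0 2 * (A 1 0 * (A 2 1 * A 3 3 - A 2 3 * A 3 1) - A 1 1 * (A 2 0 * A 3 3 - A 2 3 * A 3 0)
        + A 1 3 * (A 2 0 * A 3 1 - A 2 1 * A 3 0))
      - A 0 3 * (A 1 0 * (A 2 1 * A 3 2 - A 2 2 * A 3 1) - A 1 1 * (A 2 0 * A 3 2 - A 2 2 * A 3 0)
        + A 1 2 * (A 2 0 * A 3 1 - A 2 1 * A 3 0)) := by
  rw [Matrix.det_succ_row_zero, Fin.sum_univ_four]
  simp only [Matrix.det_fin_three, Matrix.submatrix_apply]
  have e0 : (Fin.succ (0 : Fin 3) : Fin 4) = 1 := rfl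
  have e1 : (Fin.succ (1 : Fin 3) : Fin 4) = 2 := rfl
  have e2 : (Fin.succ (2 : Fin 3) : Fin 4) = 3 := rfl
  have a0 : (Fin.succAbove (0 : Fin 4) (0 : Fin 3)) = 1 := rfl
  have a1 : (Fin.succAbove (0 : Fin 4) (1 : Fin 3)) = 2 := rfl
  have a2 : (Fin.succAbove (0 : Fin 4) (2 : Fin 3)) = 3 := rfl
  have b0 : (Fin.succAbove (1 : Fin 4) (0 : Fin 3)) = 0 := rfl
  have b1 : (Fin.succAbove (1 : Fin 4) (1 : Fin 3)) = 2 := rfl
  have b2 : (Fin.succAbove (1 : Fin 4) (2 : Fin 3)) = 3 := rfl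
  have c0 : (Fin.succAbove (2 : Fin 4) (0 : Fin 3)) = 0 := rfl
  have c1 : (Fin.succAbove (2 : Fin 4) (1 : Fin 3)) = 1 := rfl
  have c2 : (Fin.succAbove (2 : Fin 4) (2 : Fin 3)) = 3 := rfl
  have d0 : (Fin.succAbove (3 : Fin 4) (0 : Fin 3)) = 0 := rfl
  have d1 : (Fin.succAbove (3 : Fin 4) (1 : Fin 3)) = 1 := rfl
  have d2 : (Fin.succAbove (3 : Fin 4) (2 : Fin 3)) = 2 := rfl
  rw [e0, e1, e2, a0, a1, a2, b0, b1, b2, c0, c1, c2, d0, d1, d2]
  have f0 : ((0 : Fin 4) : ℕ) = 0 := rfl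
  have f1 : ((1 : Fin 4) : ℕ) = 1 := rfl
  have f2 : ((2 : Fin 4) : ℕ) = 2 := rfl
  have f3 : ((3 : Fin 4) : ℕ) = 3 := rfl
  rw [f0, f1, f2, f3]
  ring

/-- rows shifted cyclically, the last row becomes minus the first -/
lemma det_shift {R : Type*} [CommRing R] (A B : Matrix (Fin 4) (Fin 4) R)
    (h0 : ∀ j, B 0 j = A 1 j) (h1 : ∀ j, B 1 j = A 2 j) (h2 : ∀ j, B 2 j = A 3 j)
    (h3 : ∀ j, B 3 j = - A 0 j) : B.det = A.det := by
  rw [det4 A, det4 B]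
  simp only [h0, h1, h2, h3]
  ring

lemma detQ {R : Type*} [CommRing R] (p p1 κ0 κ1 κ2 κ3 : R) :
    Matrix.det !![p - p1, -(p * κ0), 0, -(p1 * κ3);
        -(p * κ0), p + p1, -(p1 * κ1), 0;
        0, -(p1 * κ1), -(p - p1), p * κ2;
        -(p1 * κ3), 0, p * κ2, -(p + p1)] =
      (1 - κ0 ^ 2) * (1 - κ2 ^ 2) * p ^ 4 +
        (κ0 ^ 2 + κ1 ^ 2 + κ2 ^ 2 + κ3 ^ 2 - 2 + 2 * (κ0 * κ1 * κ2 * κ3)) * p ^ 2 * p1 ^ 2 +
        (1 - κ1 ^ 2) * (1 - κ3 ^ 2) * p1 ^ 4 := by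
  rw [det4]
  simp only [Matrix.of_apply, Matrix.cons_val]
  ring

theorem det (h1 : S_TR) (h2 : S_FX) (_h3 : S_B8) : S_DET := by
  intro K L _ _ _ _ _ σ hσ κ p hκ hp b
  have hp2 : σ (σ p) = -p := hp
  let A : Matrix (Fin 4) (Fin 4) L := Matrix.of
    ![fun j => (b j : L), fun j => σ (b j), fun j => σ (σ (b j)), fun j => σ (σ (σ (b j)))]
  let Q : Matrix (Fin 4) (Fin 4) L :=
    !![p - σ p, -(p * κ), 0, -(σ p * σ (σ (σ κ)));
        -(p * κ), p + σ p, -(σ p * σ κ), 0;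
        0, -(σ p * σ κ), -(p - σ p), p * σ (σ κ);
        -(σ p * σ (σ (σ κ))), 0, p * σ (σ κ), -(p + σ p)]
  have hQ : Q.det = FF σ κ p := by
    rw [show Q = !![p - σ p, -(p * κ), 0, -(σ p * σ (σ (σ κ)));
        -(p * κ), p + σ p, -(σ p * σ κ), 0;
        0, -(σ p * σ κ), -(p - σ p), p * σ (σ κ);
        -(σ p * σ (σ (σ κ))), 0, p * σ (σ κ), -(p + σ p)] from rfl, detQ]
    simp only [FF, al, be, map_mul, map_sub, map_one, map_pow]
  have hb : ∀ j, σ (σ (σ (σ (b j : L)))) = -(b j : L) := fun j => (b j).2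
  -- the Gram matrix
  have hG : (Matrix.of fun i j => TT σ κ (p - σ p) (b i) (b j)).map (algebraMap K L) =
      A.transpose * ((8 : L) • Q) * A := by
    ext i j
    rw [Matrix.map_apply, Matrix.of_apply]
    have hTT : TT σ κ (p - σ p) (b i) (b j) =
        Algebra.trace K L ((p - σ p) * PP σ κ (b i : L) (b j : L)) := rfl
    rw [hTT, h1 K L σ hσ]
    have hA0 : ∀ j, A 0 j = (b j : L) := fun j => rfl
    have hA1 : ∀ j, A 1 j = σ (b j : L) := fun j => rfl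
    have hA2 : ∀ j, A 2 j = σ (σ (b j : L)) := fun j => rfl
    have hA3 : ∀ j, A 3 j = σ (σ (σ (b j : L))) := fun j => rfl
    simp only [Matrix.mul_apply, Fin.sum_univ_four, Matrix.transpose_apply, Matrix.smul_apply,
      smul_eq_mul, hA0, hA1, hA2, hA3]
    simp only [Q, Matrix.of_apply, Matrix.cons_val]
    simp only [PP, map_mul, map_add, map_sub, map_neg, map_ofNat, hp2, hκ, hb]
    ring
  have hdet : algebraMap K L (Matrix.det (Matrix.of fun i j => TT σ κ (p - σ p) (b i) (b j))) =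
      (64 * A.det) ^ 2 * FF σ κ p := by
    rw [RingHom.map_det, RingHom.mapMatrix_apply, hG, Matrix.det_mul, Matrix.det_mul,
      Matrix.det_transpose, Matrix.det_smul, hQ, Fintype.card_fin]
    ring
  have hfix : σ (64 * A.det) = 64 * A.det := by
    rw [map_mul, map_ofNat]
    congr 1
    have : σ A.det = (A.map σ).det := by
      have := RingHom.map_det (σ : L →+* L) A
      simpa using this
    rw [this]
    apply det_shift
    · intro j; rfl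
    · intro j; rfl
    · intro j; rfl
    · intro j; exact hb j
  obtain ⟨D, hD⟩ := h2 K L σ hσ _ hfix
  refine ⟨D, ?_⟩
  rw [hdet, map_pow, hD]

end Q210.MR_DET
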